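import Pool.Agent.Helper42.ST.QIA

/-!
# QI: the kernel identity
-/

set_option autoImplicit false

open MeasureTheory Set Complex Metric Filter
open scoped ContDiff Topology ENNReal

namespace Pool.Agent.Helper42.ST.QI

open Pool.Agent.Helper69.ST Pool.Agent.Helper45.Stek

/-- the cut-off -/
structure Cut (ρ : ℝ) (η : ℝ → ℝ) (s1 s2 : ℝ) : Prop where
  sm : ContDiff ℝ ∞ η
  l1 : ρ ^ 2 < s1
  l2 : s1 < s2
  l3 : s2 = ((1 + ρ) / 2) ^ 2
  z1 : ∀ s, s ≤ s1 → η s = 0
  o1 : ∃ s3, 1 < s3 ∧ ∀ s, s2 ≤ s → s ≤ s3 → η s = 1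
  z2 : ∃ s4, s4 < 1 / ρ ^ 2 ∧ ∀ s, s4 ≤ s → η s = 0

theorem exists_cut (ρ : ℝ) (hρ : 0 < ρ) (hρ1 : ρ < 1) : ∃ (η : ℝ → ℝ) (s1 s2 : ℝ), Cut ρ η s1 s2 := by
  have h1 : 1 < 1 / ρ ^ 2 := by
    rw [lt_div_iff₀ (by positivity)]
    nlinarith
  set e : ℝ := (1 / ρ ^ 2 - 1) / 3 with he
  have he0 : 0 < e := by rw [he]; linarith
  set s1 : ℝ := ((3 * ρ + 1) / 4) ^ 2 with hs1
  set s2 : ℝ := ((1 + ρ) / 2) ^ 2 with hs2
  have h12 : s1 < s2 := by rw [hs1, hs2]; nlinarith
  refine ⟨fun s => Real.smoothTransition ((s - s1) / (s2 - s1)) *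
    Real.smoothTransition ((1 + 2 * e - s) / e), s1, s2, ?_, ?_, h12, rfl, ?_, ?_, ?_⟩
  · refine ContDiff.mul ?_ ?_
    · exact Real.smoothTransition.contDiff.comp (by fun_prop)
    · exact Real.smoothTransition.contDiff.comp (by fun_prop)
  · rw [hs1]; nlinarith
  · intro s hs
    show _ * _ = _
    rw [Real.smoothTransition.zero_of_nonpos, zero_mul]
    exact div_nonpos_of_nonpos_of_nonneg (by linarith) (by linarith)
  · refine ⟨1 + e, by linarith, fun s h2 h3 => ?_⟩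
    show _ * _ = _
    rw [Real.smoothTransition.one_of_one_le, Real.smoothTransition.one_of_one_le, one_mul]
    · rw [le_div_iff₀ he0]; linarith
    · rw [le_div_iff₀ (by linarith)]; linarith
  · refine ⟨1 + 2 * e, by rw [he]; linarith, fun s h2 => ?_⟩
    show _ * _ = _
    rw [Real.smoothTransition.zero_of_nonpos (x := (1 + 2 * e - s) / e), mul_zero]
    exact div_nonpos_of_nonpos_of_nonneg (by linarith) he0.le

noncomputable def NN (w : ℂ) : ℝ := w.re ^ 2 + w.im ^ 2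

theorem NN_eq (w : ℂ) : NN w = ‖w‖ ^ 2 := by
  unfold NN
  rw [← Complex.normSq_eq_norm_sq, Complex.normSq_apply]
  ring

theorem NN_sm : ContDiff ℝ ∞ NN := by
  unfold NN
  exact ((Complex.reCLM.contDiff).pow 2).add ((Complex.imCLM.contDiff).pow 2)

theorem NN_deriv (w : ℂ) : HasFDerivAt NN ((2 * w.re) • Complex.reCLM + (2 * w.im) • Complex.imCLM) w := by
  unfold NN
  have h1 := (Complex.reCLM.hasFDerivAt (x := w)).pow 2
  have h2 := (Complex.imCLM.hasFDerivAt (x := w)).pow 2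
  have h3 := h1.add h2
  refine h3.congr_fderiv ?_
  ext z
  simp

section main

variable (Q : ℝ → ℂ) (hQ : Continuous Q) (ρ : ℝ) (hρ : 0 < ρ) (hρ1 : ρ < 1) (η : ℝ → ℝ) (s1 s2 : ℝ)
  (hη : Cut ρ η s1 s2)

noncomputable def qq (Q : ℝ → ℂ) (ρ : ℝ) (η : ℝ → ℝ) (w : ℂ) : ℂ := (η (NN w) : ℂ) * gg Q ρ w

include hQ hρ hρ1 in
theorem gg_sm (w : ℂ) (hw : ρ < ‖w‖) (hw2 : ρ * ‖w‖ < 1) : ContDiffAt ℝ ∞ (gg Q ρ) w := by
  have hopen : IsOpen {w : ℂ | ρ < ‖w‖ ∧ ρ * ‖w‖ < 1} :=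
    (isOpen_lt continuous_const continuous_norm).inter
      (isOpen_lt (continuous_const.mul continuous_norm) continuous_const)
  have hd : DifferentiableOn ℂ (gg Q ρ) {w : ℂ | ρ < ‖w‖ ∧ ρ * ‖w‖ < 1} := fun z hz =>
    (gg_diff Q hQ ρ hρ hρ1 z hz.1 hz.2).differentiableWithinAt
  have han : AnalyticAt ℂ (gg Q ρ) w := hd.analyticAt (hopen.mem_nhds ⟨hw, hw2⟩)
  exact (han.contDiffAt (n := ∞)).restrict_scalars ℝ

include hQ hρ hρ1 hη in
theorem qq_sm : ContDiff ℝ ∞ (qq Q ρ η) := by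
  rw [contDiff_iff_contDiffAt]
  intro w
  obtain ⟨s4, h4, hz4⟩ := hη.z2
  by_cases h1 : ρ < ‖w‖
  · by_cases h2 : ρ * ‖w‖ < 1
    · unfold qq
      have h3 : ContDiffAt ℝ ∞ (fun w : ℂ => ((η (NN w) : ℝ) : ℂ)) w :=
        (Complex.ofRealCLM.contDiff.comp (hη.sm.comp NN_sm)).contDiffAt
      exact h3.mul (gg_sm Q hQ ρ hρ hρ1 w h1 h2)
    · have h5 : s4 < NN w := by
        rw [NN_eq]
        have h6 : 1 / ρ ≤ ‖w‖ := by
          rw [div_le_iff₀ hρ]
          linarith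
        have h7 : (1 / ρ) ^ 2 ≤ ‖w‖ ^ 2 := pow_le_pow_left₀ (by positivity) h6 2
        have h8 : (1 / ρ) ^ 2 = 1 / ρ ^ 2 := by rw [div_pow, one_pow]
        linarith
      have h6 : ∀ᶠ z in 𝓝 w, s4 < NN z := NN_sm.continuous.continuousAt.eventually (lt_mem_nhds h5)
      have h7 : qq Q ρ η =ᶠ[𝓝 w] fun _ => 0 := by
        filter_upwards [h6] with z hz
        unfold qq
        rw [hz4 _ hz.le]
        simp
      exact contDiffAt_const.congr_of_eventuallyEq h7
  · have h5 : NN w < s1 := by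
      rw [NN_eq]
      have h6 : ‖w‖ ^ 2 ≤ ρ ^ 2 := pow_le_pow_left₀ (norm_nonneg _) (not_lt.1 h1) 2
      have := hη.l1
      linarith
    have h6 : ∀ᶠ z in 𝓝 w, NN z < s1 := NN_sm.continuous.continuousAt.eventually (gt_mem_nhds h5)
    have h7 : qq Q ρ η =ᶠ[𝓝 w] fun _ => 0 := by
      filter_upwards [h6] with z hz
      unfold qq
      rw [hη.z1 _ hz.le]
      simp
    exact contDiffAt_const.congr_of_eventuallyEq h7

include hη in
theorem deriv_zero_low (s : ℝ) (hs : s < s1) : deriv η s = 0 := by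
  have h1 : η =ᶠ[𝓝 s] fun _ => 0 := by
    filter_upwards [gt_mem_nhds hs] with z hz
    exact hη.z1 z (le_of_lt hz)
  rw [h1.deriv_eq]
  simp

include hη in
theorem deriv_zero_high (s : ℝ) (hs : s2 < s) (hs1 : s ≤ 1) : deriv η s = 0 := by
  obtain ⟨s3, h3, ho⟩ := hη.o1
  have h1 : η =ᶠ[𝓝 s] fun _ => 1 := by
    filter_upwards [lt_mem_nhds hs, gt_mem_nhds (show s < s3 by linarith)] with z hz hz'
    exact ho z (le_of_lt hz) (le_of_lt hz')
  rw [h1.deriv_eq]
  simp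

include hQ hρ hρ1 hη in
theorem dbar_qq (w : ℂ) (hw : ‖w‖ < 1) :
    dbar (qq Q ρ η) w = 2 * ((deriv η (NN w) : ℝ) : ℂ) * w * gg Q ρ w := by
  by_cases h1 : NN w < s1
  · have h6 : ∀ᶠ z in 𝓝 w, NN z < s1 := NN_sm.continuous.continuousAt.eventually (gt_mem_nhds h1)
    have h7 : qq Q ρ η =ᶠ[𝓝 w] fun _ => 0 := by
      filter_upwards [h6] with z hz
      unfold qq
      rw [hη.z1 _ hz.le]
      simp
    rw [deriv_zero_low ρ η s1 s2 hη _ h1]
    unfold dbar
    rw [h7.fderiv_eq]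
    simp
  · push Not at h1
    have h2 : ρ < ‖w‖ := by
      rw [NN_eq] at h1
      have := hη.l1
      by_contra h
      push Not at h
      have h6 : ‖w‖ ^ 2 ≤ ρ ^ 2 := pow_le_pow_left₀ (norm_nonneg _) h 2
      linarith
    have h3 : ρ * ‖w‖ < 1 := by nlinarith [norm_nonneg w]
    have hg : HasDerivAt (gg Q ρ) (deriv (gg Q ρ) w) w :=
      (gg_diff Q hQ ρ hρ hρ1 w h2 h3).hasDerivAt
    have hg2 : HasFDerivAt (gg Q ρ) ((ContinuousLinearMap.smulRight (1 : ℂ →L[ℂ] ℂ)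
        (deriv (gg Q ρ) w)).restrictScalars ℝ) w := hg.hasFDerivAt.restrictScalars ℝ
    have hη1 : HasDerivAt η (deriv η (NN w)) (NN w) :=
      (hη.sm.differentiable (by simp)).differentiableAt.hasDerivAt
    have hη2 := hη1.comp_hasFDerivAt w (NN_deriv w)
    have hη3 := Complex.ofRealCLM.hasFDerivAt.comp w hη2
    have hq := hη3.mul hg2
    have hq' : HasFDerivAt (qq Q ρ η) _ w := hq
    unfold dbar
    rw [hq'.fderiv]
    have hwI : w = w.re + w.im * I := (Complex.re_add_im w).symm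
    simp
    have hII : I * I = -1 := I_mul_I
    have key : ∀ a g : ℂ, 2 * a * w * g = 2 * a * (w.re + w.im * I) * g := by
      intro a g
      rw [← hwI]
    rw [key]
    ring_nf
    rw [I_sq]
    ring

/-- the integrand, extended by zero -/
noncomputable def hh (Q : ℝ → ℂ) (ρ : ℝ) (η : ℝ → ℝ) (F : ℂ → ℂ) : ℂ → ℂ :=
  indicator (ball (0 : ℂ) 1) fun w => 2 * ((deriv η (NN w) : ℝ) : ℂ) * w * gg Q ρ w * F w

include hQ hρ hρ1 hη in
theorem hh_cont (F : ℂ → ℂ) (hF : DifferentiableOn ℂ F (ball 0 1)) : Continuous (hh Q ρ η F) := by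
  rw [continuous_iff_continuousAt]
  intro w
  have hs2 : s2 < 1 := by rw [hη.l3]; nlinarith
  by_cases h1 : NN w < s1
  · have h6 : ∀ᶠ z in 𝓝 w, NN z < s1 := NN_sm.continuous.continuousAt.eventually (gt_mem_nhds h1)
    have h7 : hh Q ρ η F =ᶠ[𝓝 w] fun _ => 0 := by
      filter_upwards [h6] with z hz
      unfold hh
      by_cases hzb : z ∈ ball (0 : ℂ) 1
      · rw [indicator_of_mem hzb, deriv_zero_low ρ η s1 s2 hη _ hz]
        simp
      · rw [indicator_of_notMem hzb]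
    exact continuousAt_const.congr h7.symm
  · by_cases h2 : s2 < NN w
    · have h6 : ∀ᶠ z in 𝓝 w, s2 < NN z := NN_sm.continuous.continuousAt.eventually (lt_mem_nhds h2)
      have h7 : hh Q ρ η F =ᶠ[𝓝 w] fun _ => 0 := by
        filter_upwards [h6] with z hz
        unfold hh
        by_cases hzb : z ∈ ball (0 : ℂ) 1
        · have hz1 : NN z ≤ 1 := by
            rw [NN_eq]
            have : ‖z‖ < 1 := by simpa using hzb
            nlinarith [norm_nonneg z]
          rw [indicator_of_mem hzb, deriv_zero_high ρ η s1 s2 hη _ hz hz1]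
          simp
        · rw [indicator_of_notMem hzb]
      exact continuousAt_const.congr h7.symm
    · push Not at h1 h2
      have hw1 : ‖w‖ < 1 := by
        rw [NN_eq] at h2
        nlinarith [norm_nonneg w]
      have hwρ : ρ < ‖w‖ := by
        rw [NN_eq] at h1
        have := hη.l1
        by_contra h
        push Not at h
        have h6 : ‖w‖ ^ 2 ≤ ρ ^ 2 := pow_le_pow_left₀ (norm_nonneg _) h 2
        linarith
      have hwb : w ∈ ball (0 : ℂ) 1 := by simpa using hw1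
      have h7 : hh Q ρ η F =ᶠ[𝓝 w] fun w => 2 * ((deriv η (NN w) : ℝ) : ℂ) * w * gg Q ρ w * F w := by
        filter_upwards [isOpen_ball.mem_nhds hwb] with z hz
        unfold hh
        rw [indicator_of_mem hz]
      refine ContinuousAt.congr ?_ h7.symm
      have h8 : Continuous (fun w : ℂ => 2 * ((deriv η (NN w) : ℝ) : ℂ) * w) := by
        have : Continuous (deriv η) := hη.sm.continuous_deriv (by simp)
        exact (continuous_const.mul (continuous_ofReal.comp (this.comp NN_sm.continuous))).mul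
          continuous_id
      have h9 : ContinuousAt (gg Q ρ) w :=
        (gg_diff Q hQ ρ hρ hρ1 w hwρ (by nlinarith [norm_nonneg w])).continuousAt
      have h10 : ContinuousAt F w := (hF.differentiableAt (isOpen_ball.mem_nhds hwb)).continuousAt
      exact (h8.continuousAt.mul h9).mul h10

include hQ hρ hρ1 hη in
theorem radial (F : ℂ → ℂ) (hF : DifferentiableOn ℂ F (ball 0 1)) (r : ℝ) (hr : 0 < r) :
    ∫ t in Ioo (-Real.pi) Real.pi, r • hh Q ρ η F (r * exp (t * I)) =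
      ((Iio (1 : ℝ)).indicator (fun r => 2 * r * deriv η (r ^ 2)) r) •
        ∫ θ in (-Real.pi)..Real.pi, Q θ * F (ρ * exp (θ * I)) := by
  have hn : ∀ t : ℝ, ‖(r : ℂ) * exp (t * I)‖ = r := fun t => by
    rw [norm_mul, norm_e, mul_one, norm_real, Real.norm_of_nonneg hr.le]
  have hNN : ∀ t : ℝ, NN ((r : ℂ) * exp (t * I)) = r ^ 2 := fun t => by rw [NN_eq, hn]
  rw [← integral_Ioc_eq_integral_Ioo, ← intervalIntegral.integral_of_le (by linarith [Real.pi_pos])]
  by_cases h1 : r < 1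
  · rw [indicator_of_mem (show r ∈ Iio (1:ℝ) from h1)]
    have h2 : ∀ t : ℝ, r • hh Q ρ η F (r * exp (t * I)) = ((2 * r * deriv η (r ^ 2) : ℝ) : ℂ) *
        ((r * exp (t * I)) * gg Q ρ (r * exp (t * I)) * F (r * exp (t * I))) := by
      intro t
      unfold hh
      rw [indicator_of_mem (by rw [mem_ball, dist_zero_right, hn]; exact h1), hNN, real_smul]
      push_cast
      ring
    simp_rw [h2]
    rw [intervalIntegral.integral_const_mul]
    by_cases h3 : r ^ 2 < s1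
    · rw [deriv_zero_low ρ η s1 s2 hη _ h3]
      simp
    · have hrρ : ρ < r := by
        push Not at h3
        have := hη.l1
        by_contra h
        push Not at h
        have h6 : r ^ 2 ≤ ρ ^ 2 := pow_le_pow_left₀ hr.le h 2
        linarith
      rw [contour Q hQ ρ hρ hρ1 F hF r hrρ h1, real_smul]
  · rw [indicator_of_notMem (show r ∉ Iio (1:ℝ) from h1), zero_smul]
    have h2 : ∀ t : ℝ, r • hh Q ρ η F (r * exp (t * I)) = 0 := by
      intro t
      unfold hh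
      rw [indicator_of_notMem (by rw [mem_ball, dist_zero_right, hn]; exact h1), smul_zero]
    simp_rw [h2]
    simp

include hQ hρ hρ1 hη in
theorem hh_int (F : ℂ → ℂ) (hF : DifferentiableOn ℂ F (ball 0 1)) :
    IntegrableOn (fun p : ℝ × ℝ => p.1 • hh Q ρ η F (p.1 * exp (p.2 * I)))
      (Ioi 0 ×ˢ Ioo (-Real.pi) Real.pi) := by
  have hc : Continuous (fun p : ℝ × ℝ => p.1 • hh Q ρ η F (p.1 * exp (p.2 * I))) :=
    continuous_fst.smul ((hh_cont Q hQ ρ hρ hρ1 η s1 s2 hη F hF).comp (by fun_prop))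
  have h1 : IntegrableOn (fun p : ℝ × ℝ => p.1 • hh Q ρ η F (p.1 * exp (p.2 * I)))
      (Icc 0 1 ×ˢ Icc (-Real.pi) Real.pi) :=
    ContinuousOn.integrableOn_compact (isCompact_Icc.prod isCompact_Icc) hc.continuousOn
  have h2 : IntegrableOn (fun p : ℝ × ℝ => p.1 • hh Q ρ η F (p.1 * exp (p.2 * I)))
      (Ioi 1 ×ˢ Ioo (-Real.pi) Real.pi) := by
    have h3 : EqOn (fun p : ℝ × ℝ => p.1 • hh Q ρ η F (p.1 * exp (p.2 * I))) (fun _ => 0)
        (Ioi 1 ×ˢ Ioo (-Real.pi) Real.pi) := by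
      rintro ⟨r, t⟩ ⟨hr, _⟩
      have hr' : (1:ℝ) < r := hr
      show r • hh Q ρ η F (r * exp (t * I)) = 0
      unfold hh
      rw [indicator_of_notMem, smul_zero]
      rw [mem_ball, dist_zero_right, norm_mul, norm_e, mul_one, norm_real,
        Real.norm_of_nonneg (by linarith)]
      linarith
    exact (integrableOn_congr_fun h3 (measurableSet_Ioi.prod measurableSet_Ioo)).2 integrableOn_zero
  refine (h1.union h2).mono_set ?_
  rintro ⟨r, t⟩ ⟨hr, ht⟩
  have hr' : (0:ℝ) < r := hr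
  by_cases h : r ≤ 1
  · exact Or.inl ⟨⟨hr'.le, h⟩, Ioo_subset_Icc_self ht⟩
  · exact Or.inr ⟨not_le.1 h, ht⟩

include hQ hρ hρ1 hη in
theorem total (F : ℂ → ℂ) (hF : DifferentiableOn ℂ F (ball 0 1)) :
    ∫ w in ball (0 : ℂ) 1, dbar (qq Q ρ η) w * F w =
      ∫ θ in (-Real.pi)..Real.pi, Q θ * F (ρ * exp (θ * I)) := by
  have h1 : ∫ w in ball (0 : ℂ) 1, dbar (qq Q ρ η) w * F w = ∫ w, hh Q ρ η F w := by
    unfold hh
    rw [integral_indicator measurableSet_ball]
    refine setIntegral_congr_fun measurableSet_ball fun w hw => ?_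
    have hw1 : ‖w‖ < 1 := by simpa using hw
    simp only [dbar_qq Q hQ ρ hρ hρ1 η s1 s2 hη w hw1]
  rw [h1, ← Complex.integral_comp_polarCoord_symm]
  have h2 : ∀ p : ℝ × ℝ, Complex.polarCoord.symm p = p.1 * exp (p.2 * I) := by
    intro p
    rw [Complex.polarCoord_symm_apply, Complex.exp_mul_I]
    push_cast
    rfl
  simp_rw [h2]
  rw [polarCoord_target]
  have h3 := hh_int Q hQ ρ hρ hρ1 η s1 s2 hη F hF
  rw [Measure.volume_eq_prod, setIntegral_prod _ (by rw [← Measure.volume_eq_prod]; exact h3)]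
  have h4 : ∫ r in Ioi (0:ℝ), ∫ t in Ioo (-Real.pi) Real.pi, (r, t).1 • hh Q ρ η F
      ((r, t).1 * exp ((r, t).2 * I)) = ∫ r in Ioi (0:ℝ),
        ((Iio (1 : ℝ)).indicator (fun r => 2 * r * deriv η (r ^ 2)) r) •
        ∫ θ in (-Real.pi)..Real.pi, Q θ * F (ρ * exp (θ * I)) :=
    setIntegral_congr_fun measurableSet_Ioi fun r hr =>
      radial Q hQ ρ hρ hρ1 η s1 s2 hη F hF r hr
  rw [h4, integral_smul_const]
  have h5 : ∫ r in Ioi (0:ℝ), (Iio (1 : ℝ)).indicator (fun r => 2 * r * deriv η (r ^ 2)) r = 1 := by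
    rw [setIntegral_indicator measurableSet_Iio, Ioi_inter_Iio, ← integral_Ioc_eq_integral_Ioo,
      ← intervalIntegral.integral_of_le zero_le_one]
    have h6 : ∀ r ∈ uIcc (0:ℝ) 1, HasDerivAt (fun r : ℝ => η (r ^ 2)) (2 * r * deriv η (r ^ 2)) r := by
      intro r _
      have h7 : HasDerivAt η (deriv η (r ^ 2)) (r ^ 2) :=
        (hη.sm.differentiable (by simp)).differentiableAt.hasDerivAt
      have h8 : HasDerivAt (fun r : ℝ => r ^ 2) (2 * r) r := by
        simpa using hasDerivAt_pow 2 r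
      have h9 : HasDerivAt (η ∘ fun r : ℝ => r ^ 2) (deriv η (r ^ 2) * (2 * r)) r :=
        HasDerivAt.comp (h := fun r : ℝ => r ^ 2) r h7 h8
      refine h9.congr_deriv ?_
      ring
    have hcd : Continuous (deriv η) := hη.sm.continuous_deriv (by simp)
    rw [intervalIntegral.integral_eq_sub_of_hasDerivAt h6
      ((by fun_prop : Continuous fun r : ℝ => 2 * r * deriv η (r ^ 2)).intervalIntegrable _ _)]
    obtain ⟨s3, h3', ho⟩ := hη.o1
    have hs2 : s2 < 1 := by rw [hη.l3]; nlinarith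
    have e1 : η (1 ^ 2) = 1 := by
      rw [one_pow]
      exact ho 1 hs2.le h3'.le
    have e0 : η (0 ^ 2) = 0 := by
      apply hη.z1
      have := hη.l1
      nlinarith
    rw [e1, e0, sub_zero]
  rw [h5, one_smul]

end main

theorem t : S_QI := by
  intro ρ Q hρ hρ1 hQ
  obtain ⟨η, s1, s2, hη⟩ := exists_cut ρ hρ hρ1
  refine ⟨qq Q ρ η, qq_sm Q hQ ρ hρ hρ1 η s1 s2 hη, ?_, ?_, ?_⟩
  · intro w hw hw1
    obtain ⟨s3, h3, ho⟩ := hη.o1
    have h1 : ρ < ‖w‖ := by linarith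
    have h2 : ρ * ‖w‖ < 1 := by nlinarith [norm_nonneg w]
    unfold qq
    rw [ker_eq Q ρ hρ w h1 h2, ho (NN w)]
    · simp
    · rw [NN_eq, hη.l3]
      exact pow_le_pow_left₀ (by linarith) hw.le 2
    · rw [NN_eq]
      nlinarith [norm_nonneg w]
  · intro w hw hw1
    rw [dbar_qq Q hQ ρ hρ hρ1 η s1 s2 hη w hw1, deriv_zero_high ρ η s1 s2 hη]
    · simp
    · rw [NN_eq, hη.l3]
      exact pow_lt_pow_left₀ hw (by linarith) (by norm_num)
    · rw [NN_eq]
      nlinarith [norm_nonneg w]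
  · intro F hF
    exact total Q hQ ρ hρ hρ1 η s1 s2 hη F hF

end Pool.Agent.Helper42.ST.QI
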