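import Pool.Agent.Helper69.ST.Goals

/-!
# QI, part A: the kernel, holomorphy and the contour integral
-/

set_option autoImplicit false

open MeasureTheory Set Complex Metric Filter
open scoped ContDiff Topology ENNReal

namespace Pool.Agent.Helper42.ST.QI

open Pool.Agent.Helper69.ST Pool.Agent.Helper45.Stek

/-- the kernel in partial fractions -/
noncomputable def kk (ρ : ℝ) (θ : ℝ) (w : ℂ) : ℂ :=
  (w - ρ * exp (θ * I))⁻¹ + ρ * exp (-(θ * I)) * (1 - ρ * exp (-(θ * I)) * w)⁻¹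

noncomputable def gg (Q : ℝ → ℂ) (ρ : ℝ) (w : ℂ) : ℂ :=
  (2 * Real.pi : ℂ)⁻¹ * ∫ θ in (-Real.pi)..Real.pi, Q θ * kk ρ θ w

theorem norm_e (θ : ℝ) : ‖exp (θ * I)‖ = 1 := norm_exp_ofReal_mul_I θ

theorem norm_e' (θ : ℝ) : ‖exp (-(θ * I))‖ = 1 := by
  have := norm_exp_ofReal_mul_I (-θ)
  push_cast at this
  rwa [neg_mul] at this

theorem e_mul (θ : ℝ) : exp (θ * I) * exp (-(θ * I)) = 1 := by
  rw [← Complex.exp_add]
  simp

theorem lower1 (ρ : ℝ) (hρ : 0 < ρ) (θ : ℝ) (w : ℂ) : ‖w‖ - ρ ≤ ‖w - ρ * exp (θ * I)‖ := by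
  have h1 : ‖(ρ : ℂ) * exp (θ * I)‖ = ρ := by
    rw [norm_mul, norm_e, mul_one, norm_real, Real.norm_of_nonneg hρ.le]
  have := norm_sub_norm_le w (ρ * exp (θ * I))
  rwa [h1] at this

theorem lower2 (ρ : ℝ) (hρ : 0 < ρ) (θ : ℝ) (w : ℂ) :
    1 - ρ * ‖w‖ ≤ ‖1 - ρ * exp (-(θ * I)) * w‖ := by
  have h1 : ‖(ρ : ℂ) * exp (-(θ * I)) * w‖ = ρ * ‖w‖ := by
    rw [norm_mul, norm_mul, norm_e', mul_one, norm_real, Real.norm_of_nonneg hρ.le]
  have := norm_sub_norm_le (1 : ℂ) (ρ * exp (-(θ * I)) * w)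
  rwa [h1, norm_one] at this

theorem ne1 (ρ : ℝ) (hρ : 0 < ρ) (θ : ℝ) (w : ℂ) (hw : ρ < ‖w‖) : w - ρ * exp (θ * I) ≠ 0 := by
  intro h
  have := lower1 ρ hρ θ w
  rw [h, norm_zero] at this
  linarith

theorem ne2 (ρ : ℝ) (hρ : 0 < ρ) (θ : ℝ) (w : ℂ) (hw : ρ * ‖w‖ < 1) :
    1 - ρ * exp (-(θ * I)) * w ≠ 0 := by
  intro h
  have := lower2 ρ hρ θ w
  rw [h, norm_zero] at this
  linarith

theorem kk_eq (ρ : ℝ) (hρ : 0 < ρ) (θ : ℝ) (w : ℂ) (hw : ρ < ‖w‖) (hw2 : ρ * ‖w‖ < 1) :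
    kk ρ θ w = (1 - ρ ^ 2) / ((w - ρ * exp (θ * I)) * (1 - ρ * exp (-(θ * I)) * w)) := by
  have h1 := ne1 ρ hρ θ w hw
  have h2 := ne2 ρ hρ θ w hw2
  have h3 := e_mul θ
  unfold kk
  rw [eq_div_iff (mul_ne_zero h1 h2)]
  have h4 : ∀ x y b : ℂ, (x⁻¹ + b * y⁻¹) * (x * y) = (x⁻¹ * x) * y + b * (y⁻¹ * y) * x := by
    intro x y b
    ring
  rw [h4, inv_mul_cancel₀ h1, inv_mul_cancel₀ h2]
  linear_combination (-(ρ : ℂ) ^ 2) * h3

theorem ker_eq (Q : ℝ → ℂ) (ρ : ℝ) (hρ : 0 < ρ) (w : ℂ) (hw : ρ < ‖w‖) (hw2 : ρ * ‖w‖ < 1) :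
    Pool.Agent.Helper69.ST.ker Q ρ w / w = gg Q ρ w := by
  have hw0 : w ≠ 0 := by
    intro h
    rw [h, norm_zero] at hw
    linarith
  rw [div_eq_iff hw0]
  unfold Pool.Agent.Helper69.ST.ker gg
  rw [mul_assoc, ← intervalIntegral.integral_mul_const]
  congr 1
  refine intervalIntegral.integral_congr fun θ _ => ?_
  show Q θ * _ = Q θ * kk ρ θ w * w
  rw [kk_eq ρ hρ θ w hw hw2]
  ring

theorem kk_cont (ρ : ℝ) (hρ : 0 < ρ) (w : ℂ) (hw : ρ < ‖w‖) (hw2 : ρ * ‖w‖ < 1) :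
    Continuous (fun θ : ℝ => kk ρ θ w) := by
  unfold kk
  refine Continuous.add ?_ (Continuous.mul ?_ ?_)
  · exact Continuous.inv₀ (by fun_prop) fun θ => ne1 ρ hρ θ w hw
  · fun_prop
  · exact Continuous.inv₀ (by fun_prop) fun θ => ne2 ρ hρ θ w hw2

/-- derivative of the kernel -/
noncomputable def kd (ρ : ℝ) (θ : ℝ) (w : ℂ) : ℂ :=
  -((w - ρ * exp (θ * I)) ^ 2)⁻¹ +
    (ρ * exp (-(θ * I))) ^ 2 * ((1 - ρ * exp (-(θ * I)) * w) ^ 2)⁻¹

theorem kk_deriv (ρ : ℝ) (hρ : 0 < ρ) (θ : ℝ) (w : ℂ) (hw : ρ < ‖w‖) (hw2 : ρ * ‖w‖ < 1) :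
    HasDerivAt (fun w => kk ρ θ w) (kd ρ θ w) w := by
  have h1 := ne1 ρ hρ θ w hw
  have h2 := ne2 ρ hρ θ w hw2
  have e1 : HasDerivAt (fun w : ℂ => w - ρ * exp (θ * I)) 1 w := by
    simpa using (hasDerivAt_id w).sub_const (ρ * exp (θ * I))
  have e2 : HasDerivAt (fun w : ℂ => 1 - ρ * exp (-(θ * I)) * w) (-(ρ * exp (-(θ * I)))) w := by
    have := ((hasDerivAt_id w).const_mul (ρ * exp (-(θ * I)))).const_sub 1
    simpa using this
  have e3 := e1.inv h1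
  have e4 := (e2.inv h2).const_mul (ρ * exp (-(θ * I)))
  have e5 := e3.add e4
  unfold kd
  refine e5.congr_deriv ?_
  field_simp

theorem kd_cont (ρ : ℝ) (hρ : 0 < ρ) (w : ℂ) (hw : ρ < ‖w‖) (hw2 : ρ * ‖w‖ < 1) :
    Continuous (fun θ : ℝ => kd ρ θ w) := by
  unfold kd
  refine Continuous.add (Continuous.neg ?_) (Continuous.mul ?_ ?_)
  · exact Continuous.inv₀ (by fun_prop) fun θ => pow_ne_zero 2 (ne1 ρ hρ θ w hw)
  · fun_prop
  · exact Continuous.inv₀ (by fun_prop) fun θ => pow_ne_zero 2 (ne2 ρ hρ θ w hw2)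

theorem kd_bound (ρ : ℝ) (hρ : 0 < ρ) (hρ1 : ρ < 1) (θ : ℝ) (w : ℂ) (c : ℝ) (hc : 0 < c)
    (hw : ρ + c ≤ ‖w‖) (hw2 : ρ * ‖w‖ + c ≤ 1) : ‖kd ρ θ w‖ ≤ 2 * (c ^ 2)⁻¹ := by
  unfold kd
  refine (norm_add_le _ _).trans ?_
  have h1 : c ≤ ‖w - ρ * exp (θ * I)‖ := by
    have := lower1 ρ hρ θ w
    linarith
  have h2 : c ≤ ‖1 - ρ * exp (-(θ * I)) * w‖ := by
    have := lower2 ρ hρ θ w
    linarith
  have h3 : ‖-((w - ρ * exp (θ * I)) ^ 2)⁻¹‖ ≤ (c ^ 2)⁻¹ := by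
    rw [norm_neg, norm_inv, norm_pow]
    exact inv_anti₀ (by positivity) (pow_le_pow_left₀ hc.le h1 2)
  have h4 : ‖((1 - ρ * exp (-(θ * I)) * w) ^ 2)⁻¹‖ ≤ (c ^ 2)⁻¹ := by
    rw [norm_inv, norm_pow]
    exact inv_anti₀ (by positivity) (pow_le_pow_left₀ hc.le h2 2)
  have h5 : ‖((ρ : ℂ) * exp (-(θ * I))) ^ 2‖ ≤ 1 := by
    rw [norm_pow, norm_mul, norm_e', mul_one, norm_real, Real.norm_of_nonneg hρ.le]
    exact pow_le_one₀ hρ.le hρ1.le
  rw [norm_mul]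
  have h6 : ‖((ρ : ℂ) * exp (-(θ * I))) ^ 2‖ * ‖((1 - ρ * exp (-(θ * I)) * w) ^ 2)⁻¹‖ ≤
      1 * (c ^ 2)⁻¹ := mul_le_mul h5 h4 (norm_nonneg _) (by norm_num)
  linarith

theorem gg_diff (Q : ℝ → ℂ) (hQ : Continuous Q) (ρ : ℝ) (hρ : 0 < ρ) (hρ1 : ρ < 1) (w0 : ℂ)
    (hw : ρ < ‖w0‖) (hw2 : ρ * ‖w0‖ < 1) : DifferentiableAt ℂ (gg Q ρ) w0 := by
  set c : ℝ := min ((‖w0‖ - ρ) / 2) ((1 - ρ * ‖w0‖) / 2) with hc
  have hc0 : 0 < c := lt_min (by linarith) (by linarith)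
  have hc1 : c ≤ (‖w0‖ - ρ) / 2 := min_le_left _ _
  have hc2 : c ≤ (1 - ρ * ‖w0‖) / 2 := min_le_right _ _
  obtain ⟨M, hM⟩ := (isCompact_uIcc (a := -Real.pi) (b := Real.pi)).exists_bound_of_continuousOn
    hQ.continuousOn
  have hball : ∀ w ∈ ball w0 c, ρ + c ≤ ‖w‖ ∧ ρ * ‖w‖ + c ≤ 1 := by
    intro w hw'
    rw [mem_ball, dist_eq_norm] at hw'
    have h1 : ‖w0‖ - ‖w‖ ≤ ‖w - w0‖ := by
      have := norm_sub_norm_le w0 w
      rwa [norm_sub_rev] at this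
    have h2 : ‖w‖ - ‖w0‖ ≤ ‖w - w0‖ := norm_sub_norm_le w w0
    constructor
    · linarith
    · nlinarith
  have hnh : ball w0 c ∈ 𝓝 w0 := ball_mem_nhds w0 hc0
  have key := intervalIntegral.hasDerivAt_integral_of_dominated_loc_of_deriv_le
    (F := fun w θ => Q θ * kk ρ θ w) (F' := fun w θ => Q θ * kd ρ θ w) (x₀ := w0)
    (bound := fun _ => |M| * (2 * (c ^ 2)⁻¹)) (μ := volume) (a := -Real.pi) (b := Real.pi) hnh
    (by
      filter_upwards [hnh] with w hw'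
      have h1 := hball w hw'
      exact (hQ.mul (kk_cont ρ hρ w (by linarith) (by linarith))).aestronglyMeasurable)
    ((hQ.mul (kk_cont ρ hρ w0 hw hw2)).intervalIntegrable _ _)
    ((hQ.mul (kd_cont ρ hρ w0 hw hw2)).aestronglyMeasurable)
    (by
      refine Filter.Eventually.of_forall fun θ hθ w hw' => ?_
      have h1 := hball w hw'
      rw [norm_mul]
      have h2 := hM θ (uIoc_subset_uIcc hθ)
      exact mul_le_mul (h2.trans (le_abs_self M)) (kd_bound ρ hρ hρ1 θ w c hc0 h1.1 h1.2)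
        (norm_nonneg _) (abs_nonneg _))
    (by simp)
    (by
      refine Filter.Eventually.of_forall fun θ _ w hw' => ?_
      have h1 := hball w hw'
      exact (kk_deriv ρ hρ θ w (by linarith) (by linarith)).const_mul (Q θ))
  exact (key.2.const_mul _).differentiableAt

/-- Cauchy's formula for the kernel -/
theorem inner (ρ : ℝ) (hρ : 0 < ρ) (hρ1 : ρ < 1) (F : ℂ → ℂ) (hF : DifferentiableOn ℂ F (ball 0 1))
    (r : ℝ) (hr : ρ < r) (hr1 : r < 1) (θ : ℝ) :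
    ∫ t in (-Real.pi)..Real.pi, (r * exp (t * I)) * kk ρ θ (r * exp (t * I)) *
      F (r * exp (t * I)) = 2 * Real.pi * F (ρ * exp (θ * I)) := by
  have hr0 : 0 < r := hρ.trans hr
  set f : ℂ → ℂ := fun z => (1 - ρ ^ 2) * (1 - ρ * exp (-(θ * I)) * z)⁻¹ * F z with hf
  have hcl : closure (ball (0 : ℂ) r) ⊆ ball 0 1 := by
    rw [closure_ball _ hr0.ne']
    exact closedBall_subset_ball hr1
  have hdiff : DiffContOnCl ℂ f (ball 0 r) := by
    apply DifferentiableOn.diffContOnCl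
    intro z hz
    have hz1 := hcl hz
    have hzn : ‖z‖ < 1 := by simpa using hz1
    have h1 : 1 - ρ * exp (-(θ * I)) * z ≠ 0 := ne2 ρ hρ θ z (by nlinarith [norm_nonneg z])
    have h2 : DifferentiableAt ℂ F z := hF.differentiableAt (isOpen_ball.mem_nhds hz1)
    have h3 : DifferentiableAt ℂ (fun z : ℂ => (1 - ρ * exp (-(θ * I)) * z)⁻¹) z :=
      DifferentiableAt.inv (by fun_prop) h1
    exact ((h3.const_mul _).mul h2).differentiableWithinAt
  have ha : (ρ : ℂ) * exp (θ * I) ∈ ball (0 : ℂ) r := by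
    rw [mem_ball, dist_zero_right, norm_mul, norm_e, mul_one, norm_real, Real.norm_of_nonneg hρ.le]
    exact hr
  have hC := hdiff.circleIntegral_sub_inv_smul ha
  have hfa : f (ρ * exp (θ * I)) = F (ρ * exp (θ * I)) := by
    simp only [hf]
    have h1 : (1 : ℂ) - ρ * exp (-(θ * I)) * (ρ * exp (θ * I)) = 1 - ρ ^ 2 := by
      linear_combination (-(ρ : ℂ) ^ 2) * e_mul θ
    rw [h1]
    have h2 : (1 : ℂ) - ρ ^ 2 ≠ 0 := by
      have h3 : (1 : ℝ) - ρ ^ 2 ≠ 0 := by nlinarith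
      exact_mod_cast h3
    rw [mul_inv_cancel₀ h2, one_mul]
  rw [hfa] at hC
  -- the circle integral
  have hcirc : ∮ z in C(0, r), (z - ρ * exp (θ * I))⁻¹ • f z =
      I * ∫ t in (0 : ℝ)..(2 * Real.pi), (r * exp (t * I)) * kk ρ θ (r * exp (t * I)) *
        F (r * exp (t * I)) := by
    unfold circleIntegral
    rw [← intervalIntegral.integral_const_mul]
    refine intervalIntegral.integral_congr fun t _ => ?_
    simp only [deriv_circleMap, smul_eq_mul]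
    have h1 : circleMap 0 r t = r * exp (t * I) := by simp [circleMap]
    rw [h1]
    have hn : ‖(r : ℂ) * exp (t * I)‖ = r := by
      rw [norm_mul, norm_e, mul_one, norm_real, Real.norm_of_nonneg hr0.le]
    have h2 : ρ < ‖(r : ℂ) * exp (t * I)‖ := by rw [hn]; exact hr
    have h3 : ρ * ‖(r : ℂ) * exp (t * I)‖ < 1 := by rw [hn]; nlinarith
    rw [kk_eq ρ hρ θ _ h2 h3]
    simp only [hf]
    have h4 := ne1 ρ hρ θ _ h2
    have h5 := ne2 ρ hρ θ _ h3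
    field_simp
  have hper : Function.Periodic (fun t : ℝ => (r * exp (t * I)) * kk ρ θ (r * exp (t * I)) *
      F (r * exp (t * I))) (2 * Real.pi) := by
    intro t
    have : exp (((t + 2 * Real.pi : ℝ) : ℂ) * I) = exp (t * I) := by
      push_cast
      rw [add_mul, Complex.exp_add, Complex.exp_two_pi_mul_I, mul_one]
    simp only [this]
  have h1 := hper.intervalIntegral_add_eq (-Real.pi) 0
  rw [zero_add, show -Real.pi + 2 * Real.pi = Real.pi by ring] at h1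
  rw [h1]
  have h2 : I * ∫ t in (0 : ℝ)..(2 * Real.pi), (r * exp (t * I)) * kk ρ θ (r * exp (t * I)) *
        F (r * exp (t * I)) = I * (2 * Real.pi * F (ρ * exp (θ * I))) := by
    rw [← hcirc, hC, smul_eq_mul]
    ring
  exact mul_left_cancel₀ I_ne_zero h2

theorem contour (Q : ℝ → ℂ) (hQ : Continuous Q) (ρ : ℝ) (hρ : 0 < ρ) (hρ1 : ρ < 1) (F : ℂ → ℂ)
    (hF : DifferentiableOn ℂ F (ball 0 1)) (r : ℝ) (hr : ρ < r) (hr1 : r < 1) :
    ∫ t in (-Real.pi)..Real.pi, (r * exp (t * I)) * gg Q ρ (r * exp (t * I)) *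
      F (r * exp (t * I)) = ∫ θ in (-Real.pi)..Real.pi, Q θ * F (ρ * exp (θ * I)) := by
  have hr0 : 0 < r := hρ.trans hr
  have hn : ∀ t : ℝ, ‖(r : ℂ) * exp (t * I)‖ = r := fun t => by
    rw [norm_mul, norm_e, mul_one, norm_real, Real.norm_of_nonneg hr0.le]
  have hpi : (2 * Real.pi : ℂ) ≠ 0 := by
    have := Real.pi_ne_zero
    exact_mod_cast mul_ne_zero two_ne_zero this
  have hFc : Continuous (fun t : ℝ => F (r * exp (t * I))) := by
    apply hF.continuousOn.comp_continuous (by fun_prop)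
    intro t
    rw [mem_ball, dist_zero_right, hn]
    exact hr1
  -- joint continuity
  have hjc : Continuous (fun p : ℝ × ℝ => (2 * Real.pi : ℂ)⁻¹ *
      (Q p.2 * ((r * exp (p.1 * I)) * kk ρ p.2 (r * exp (p.1 * I)) * F (r * exp (p.1 * I))))) := by
    refine continuous_const.mul ((hQ.comp continuous_snd).mul ?_)
    refine Continuous.mul (Continuous.mul (by fun_prop) ?_) (hFc.comp continuous_fst)
    unfold kk
    refine Continuous.add ?_ (Continuous.mul (by fun_prop) ?_)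
    · refine Continuous.inv₀ (by fun_prop) fun p => ne1 ρ hρ p.2 _ ?_
      rw [hn]; exact hr
    · refine Continuous.inv₀ (by fun_prop) fun p => ne2 ρ hρ p.2 _ ?_
      rw [hn]; nlinarith
  have h1 : ∫ t in (-Real.pi)..Real.pi, (r * exp (t * I)) * gg Q ρ (r * exp (t * I)) *
      F (r * exp (t * I)) = ∫ t in (-Real.pi)..Real.pi, ∫ θ in (-Real.pi)..Real.pi,
        (2 * Real.pi : ℂ)⁻¹ * (Q θ * ((r * exp (t * I)) * kk ρ θ (r * exp (t * I)) *
          F (r * exp (t * I)))) := by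
    refine intervalIntegral.integral_congr fun t _ => ?_
    show (r * exp (t * I)) * gg Q ρ (r * exp (t * I)) * F (r * exp (t * I)) = _
    unfold gg
    have e1 : (r * exp (t * I)) * ((2 * Real.pi : ℂ)⁻¹ * ∫ θ in (-Real.pi)..Real.pi, Q θ *
        kk ρ θ (r * exp (t * I))) * F (r * exp (t * I)) =
        ((r * exp (t * I)) * (2 * Real.pi : ℂ)⁻¹ * F (r * exp (t * I))) *
          ∫ θ in (-Real.pi)..Real.pi, Q θ * kk ρ θ (r * exp (t * I)) := by ring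
    rw [e1, ← intervalIntegral.integral_const_mul]
    refine intervalIntegral.integral_congr fun θ _ => ?_
    show _ * (Q θ * kk ρ θ (r * exp (t * I))) = _
    ring
  rw [h1, intervalIntegral_intervalIntegral_swap]
  · refine intervalIntegral.integral_congr fun θ _ => ?_
    show ∫ t in (-Real.pi)..Real.pi, (2 * Real.pi : ℂ)⁻¹ * (Q θ * ((r * exp (t * I)) *
      kk ρ θ (r * exp (t * I)) * F (r * exp (t * I)))) = Q θ * F (ρ * exp (θ * I))
    rw [intervalIntegral.integral_const_mul, intervalIntegral.integral_const_mul,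
      inner ρ hρ hρ1 F hF r hr hr1 θ]
    field_simp
  · have h2 : IntegrableOn (Function.uncurry fun (t θ : ℝ) => (2 * Real.pi : ℂ)⁻¹ *
        (Q θ * ((r * exp (t * I)) * kk ρ θ (r * exp (t * I)) * F (r * exp (t * I)))))
        (uIcc (-Real.pi) Real.pi ×ˢ uIcc (-Real.pi) Real.pi) :=
      ContinuousOn.integrableOn_compact (isCompact_uIcc.prod isCompact_uIcc) hjc.continuousOn
    exact h2.mono_set (Set.prod_mono uIoc_subset_uIcc uIoc_subset_uIcc)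

end Pool.Agent.Helper42.ST.QI
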